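import Mathlib

/-! Taylor coefficients and continuation across the point of contact. -/

set_option autoImplicit false

namespace Pool.Agent.W5h21.WN

open Filter Topology Metric

section
variable {E : ℂ → ℂ} {x₀ : ℂ} {lam : ℝ} {γ : ℕ → ℂ}

theorem re_ball {s : ℂ} (hs : s ∈ ball (x₀ + (lam : ℂ)) lam) : x₀.re < s.re := by
  have h1 : |(s - (x₀ + (lam : ℂ))).re| < lam :=
    lt_of_le_of_lt (Complex.abs_re_le_norm _) (by simpa [dist_eq_norm] using hs)
  rw [Complex.sub_re, Complex.add_re, Complex.ofReal_re, abs_lt] at h1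
  linarith [h1.1]

theorem norm_lt_of_re {s : ℂ} (hlam : 0 < lam) {η δ : ℝ} (hδ : 0 < δ) (hη : 0 < η)
    (hηδ : 2 * lam * η + η ^ 2 < δ ^ 2) (hs : s ∈ ball (x₀ + (lam : ℂ)) (lam + η))
    (hre : s.re ≤ x₀.re) : s ∈ ball x₀ δ := by
  rw [mem_ball, dist_eq_norm] at hs ⊢
  have h1 : ‖s - (x₀ + (lam : ℂ))‖ ^ 2 < (lam + η) ^ 2 :=
    pow_lt_pow_left₀ hs (norm_nonneg _) (by norm_num)
  rw [Complex.sq_norm, Complex.normSq_apply, Complex.sub_re, Complex.sub_im, Complex.add_re,
    Complex.add_im, Complex.ofReal_re, Complex.ofReal_im] at h1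
  have h2 : ‖s - x₀‖ ^ 2 < δ ^ 2 := by
    rw [Complex.sq_norm, Complex.normSq_apply, Complex.sub_re, Complex.sub_im]
    nlinarith
  exact lt_of_pow_lt_pow_left₀ 2 hδ.le h2

/-- continuation from the decay of the coefficients -/
theorem ext_of_decay (hlam : 0 < lam) (hE : DifferentiableOn ℂ E {s | x₀.re < s.re})
    (hsum : ∀ z : ℂ, ‖z‖ < lam → HasSum (fun N => γ N * z ^ N) (E (x₀ + lam + z)))
    {q : ℝ} (hq0 : 0 < q) (hq : q < lam⁻¹) {C : ℝ} (hγ : ∀ N, ‖γ N‖ ≤ C * q ^ N) :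
    ∃ G : ℂ → ℂ, AnalyticAt ℂ G x₀ ∧ ∀ᶠ s in 𝓝 x₀, x₀.re < s.re → E s = G s := by
  have hql : lam < q⁻¹ := by
    rw [lt_inv_comm₀ hlam hq0]
    exact hq
  obtain ⟨R, hR1, hR2⟩ := exists_between hql
  have hR0 : 0 < R := hlam.trans hR1
  have hqR : q * R < 1 := by
    rw [mul_comm]
    calc R * q < q⁻¹ * q := mul_lt_mul_of_pos_right hR2 hq0
      _ = 1 := inv_mul_cancel₀ hq0.ne'
  set G : ℂ → ℂ := fun s => ∑' N, γ N * (s - (x₀ + lam)) ^ N with hG
  have hGd : DifferentiableOn ℂ G (ball (x₀ + (lam : ℂ)) R) := by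
    refine Complex.differentiableOn_tsum_of_summable_norm (u := fun N => C * (q * R) ^ N) ?_ ?_
      isOpen_ball ?_
    · exact (summable_geometric_of_lt_one (by positivity) hqR).mul_left C
    · intro N s _
      fun_prop
    · intro N s hs
      rw [mem_ball, dist_eq_norm] at hs
      rw [norm_mul, norm_pow]
      calc ‖γ N‖ * ‖s - (x₀ + lam)‖ ^ N ≤ (C * q ^ N) * R ^ N :=
            mul_le_mul (hγ N) (pow_le_pow_left₀ (norm_nonneg _) hs.le N) (by positivity)
              ((norm_nonneg _).trans (hγ N))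
        _ = C * (q * R) ^ N := by ring
  have hx₀ : x₀ ∈ ball (x₀ + (lam : ℂ)) R := by
    rw [mem_ball, dist_eq_norm, sub_add_cancel_left, norm_neg, Complex.norm_real, Real.norm_eq_abs,
      abs_of_pos hlam]
    exact hR1
  have hGan : AnalyticOnNhd ℂ G (ball (x₀ + (lam : ℂ)) R) := hGd.analyticOnNhd isOpen_ball
  refine ⟨G, hGan x₀ hx₀, ?_⟩
  have hopen : IsOpen {s : ℂ | x₀.re < s.re} := isOpen_lt continuous_const Complex.continuous_re
  have hconv : Convex ℝ ({s : ℂ | x₀.re < s.re} ∩ ball (x₀ + (lam : ℂ)) R) :=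
    (convex_halfSpace_re_gt _).inter (convex_ball _ _)
  have hs₀ : x₀ + (lam : ℂ) ∈ {s : ℂ | x₀.re < s.re} ∩ ball (x₀ + (lam : ℂ)) R := by
    refine ⟨?_, mem_ball_self hR0⟩
    simp only [Set.mem_ofPred_eq, Complex.add_re, Complex.ofReal_re]
    linarith
  have heq : Set.EqOn E G ({s : ℂ | x₀.re < s.re} ∩ ball (x₀ + (lam : ℂ)) R) := by
    refine AnalyticOnNhd.eqOn_of_preconnected_of_eventuallyEq
      ((hE.mono Set.inter_subset_left).analyticOnNhd (hopen.inter isOpen_ball))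
      (hGan.mono Set.inter_subset_right) hconv.isPreconnected hs₀ ?_
    filter_upwards [ball_mem_nhds (x₀ + (lam : ℂ)) hlam] with s hs
    rw [mem_ball, dist_eq_norm] at hs
    have h1 := hsum (s - (x₀ + lam)) hs
    rw [add_sub_cancel] at h1
    exact h1.tsum_eq.symm
  filter_upwards [isOpen_ball.mem_nhds hx₀] with s hs hre
  exact heq ⟨hre, hs⟩

/-- decay of the coefficients from the continuation -/
theorem decay_of_ext (hlam : 0 < lam) (hE : DifferentiableOn ℂ E {s | x₀.re < s.re})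
    (hsum : ∀ z : ℂ, ‖z‖ < lam → HasSum (fun N => γ N * z ^ N) (E (x₀ + lam + z)))
    {G : ℂ → ℂ} (hG : AnalyticAt ℂ G x₀) (hEG : ∀ᶠ s in 𝓝 x₀, x₀.re < s.re → E s = G s) :
    ∃ q : ℝ, 0 < q ∧ q < lam⁻¹ ∧ ∃ C : ℝ, ∀ N, ‖γ N‖ ≤ C * q ^ N := by
  obtain ⟨δ, hδ, hδ'⟩ := Metric.eventually_nhds_iff_ball.1 (hG.eventually_analyticAt.and hEG)
  set η : ℝ := min 1 (δ ^ 2 / (2 * lam + 2)) with hη
  have hη0 : 0 < η := by positivity
  have hη1 : η ≤ 1 := min_le_left _ _
  have hηδ : 2 * lam * η + η ^ 2 < δ ^ 2 := by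
    have h1 : η ≤ δ ^ 2 / (2 * lam + 2) := min_le_right _ _
    rw [le_div_iff₀ (by positivity)] at h1
    nlinarith [mul_pos hδ hδ]
  have hopen : IsOpen {s : ℂ | x₀.re < s.re} := isOpen_lt continuous_const Complex.continuous_re
  classical
  set F : ℂ → ℂ := fun s => if x₀.re < s.re then E s else G s with hF
  have hFd : DifferentiableOn ℂ F (ball (x₀ + (lam : ℂ)) (lam + η)) := by
    intro s hs
    refine DifferentiableAt.differentiableWithinAt ?_
    by_cases hre : x₀.re < s.re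
    · have h1 : F =ᶠ[𝓝 s] E := by
        filter_upwards [hopen.mem_nhds hre] with z hz
        exact if_pos hz
      exact h1.differentiableAt_iff.2 (hE.differentiableAt (hopen.mem_nhds hre))
    · have h2 := norm_lt_of_re hlam hδ hη0 hηδ hs (not_lt.1 hre)
      have h1 : F =ᶠ[𝓝 s] G := by
        filter_upwards [isOpen_ball.mem_nhds h2] with z hz
        simp only [hF]
        split_ifs with h3
        · exact (hδ' z hz).2 h3
        · rfl
      exact h1.differentiableAt_iff.2 (hδ' s h2).1.differentiableAt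
  -- the Taylor series
  set R : NNReal := ⟨lam + η / 2, by positivity⟩ with hR
  have hRpos : 0 < R := by
    rw [← NNReal.coe_pos]
    change 0 < lam + η / 2
    positivity
  have hclosed : closedBall (x₀ + (lam : ℂ)) (R : ℝ) ⊆ ball (x₀ + (lam : ℂ)) (lam + η) := by
    refine closedBall_subset_ball ?_
    change lam + η / 2 < lam + η
    linarith
  have h1 := (hFd.mono hclosed).hasFPowerSeriesOnBall hRpos
  set p := cauchyPowerSeries F (x₀ + (lam : ℂ)) (R : ℝ) with hp
  set r : NNReal := ⟨lam + η / 4, by positivity⟩ with hr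
  have hrR : (r : ENNReal) < p.radius := by
    refine lt_of_lt_of_le ?_ h1.r_le
    rw [ENNReal.coe_lt_coe, ← NNReal.coe_lt_coe]
    change lam + η / 4 < lam + η / 2
    linarith
  obtain ⟨C, -, hC⟩ := p.norm_mul_pow_le_of_lt_radius hrR
  have h2 : HasFPowerSeriesAt F (FormalMultilinearSeries.ofScalars ℂ γ) (x₀ + (lam : ℂ)) := by
    rw [hasFPowerSeriesAt_iff]
    filter_upwards [ball_mem_nhds (0 : ℂ) hlam] with z hz
    rw [mem_ball_zero_iff] at hz
    have h3 : F (x₀ + lam + z) = E (x₀ + lam + z) := by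
      refine if_pos (re_ball (lam := lam) ?_)
      rw [mem_ball, dist_eq_norm, add_sub_cancel_left]
      exact hz
    rw [h3]
    refine (hsum z hz).congr_fun ?_ |> fun h => h
    intro N
    rw [FormalMultilinearSeries.coeff_ofScalars, smul_eq_mul, mul_comm]
  have h3 : p = FormalMultilinearSeries.ofScalars ℂ γ :=
    h1.hasFPowerSeriesAt.eq_formalMultilinearSeries h2
  have hrpos : (0 : ℝ) < lam + η / 4 := by positivity
  refine ⟨(lam + η / 4)⁻¹, by positivity, ?_, C, fun N => ?_⟩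
  · rw [inv_lt_inv₀ hrpos hlam]
    linarith
  · have h4 := hC N
    rw [FormalMultilinearSeries.norm_apply_eq_norm_coef, h3,
      FormalMultilinearSeries.coeff_ofScalars] at h4
    change ‖γ N‖ * (lam + η / 4) ^ N ≤ C at h4
    rw [inv_pow, ← div_eq_mul_inv, le_div_iff₀ (by positivity)]
    exact h4

end

end Pool.Agent.W5h21.WN
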