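import Pool.Agent.W5h21.WN.Tay
import Pool.Agent.W5h21.TB.Final

/-! The windows of the fibre averages. -/

set_option autoImplicit false

namespace Pool.Agent.W5h21.WN

open NumberField IsDedekindDomain Filter Topology
open Pool.Agent.H126R3 (Qc Qc_pos)
open Pool.Agent.W385.CP
open Pool.Agent.W353.FB (Fibration ValueAt)
open Pool.Agent.Y707.PH
open Pool.Agent.W5h21.TB

section
variable {K : Type} [Field K] [NumberField K] {f : Fibration K}
  {R : Finset (HeightOneSpectrum (𝓞 K))} {F : Type} [Field F] [NumberField F] [Algebra K F] {C : ℝ}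
  {b : HeightOneSpectrum (𝓞 F) → ℝ}

theorem summ_norm (σ : ℝ) (hσ : 1 < σ) :
    Summable fun y : MaximalSpectrum (𝓞 F) => ((qn y : ℕ) : ℝ) ^ (-σ) := by
  have h1 := summable_tm (B := 𝓞 F) 0 (Module.finrank ℤ (𝓞 F)) (tr := fun _ _ => 1) (w := 0)
    (Ct := 1) zero_le_one (fun y m => by rw [Real.rpow_zero, norm_one, one_mul]) ((σ : ℝ) : ℂ)
    (by rw [Complex.ofReal_re]; push_cast; linarith)
  have h2 := h1.norm.comp_injective (i := fun y : MaximalSpectrum (𝓞 F) => (y, 0))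
    fun a b h => (Prod.mk.inj h).1
  refine h2.congr fun y => ?_
  have hq : 0 < qn y := by
    have := two_le_qn y
    omega
  rw [Function.comp_apply]
  unfold tm
  rw [norm_div, norm_mul, norm_one, one_mul, Complex.norm_natCast_cpow_of_pos hq]
  simp

/-- sums over the primes -/
theorem v_sum (hf : IsLisse f R C) (hb : ∀ v, Gd K R v → ValueAt (averageValue f) v (b v))
    (φ : ℕ → ℂ) {M σ : ℝ} (hσ : 1 < σ) (hφ : ∀ q : ℕ, 1 ≤ q → ‖φ q‖ ≤ M * (q : ℝ) ^ (-σ)) :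
    HasSum (fun v : HeightOneSpectrum (𝓞 F) => ((trb K R b (eqF F v) 1 : ℂ) *
      φ (Ideal.absNorm v.asIdeal))) (∑' c, Ac (trb K R b) c * φ (Qc c)) := by
  classical
  set g : MaximalSpectrum (𝓞 F) × ℕ → ℂ := fun z =>
    trb K R b z.1 (z.2 + 1) / ((z.2 + 1 : ℕ) : ℂ) * φ (Qc (kp z)) with hg
  have hinj : Function.Injective (fun v : HeightOneSpectrum (𝓞 F) => (eqF F v, 0)) := by
    intro v v' h
    exact (eqF F).injective (Prod.mk.inj h).1
  have hoff : ∀ z, z ∉ Set.range (fun v : HeightOneSpectrum (𝓞 F) => (eqF F v, 0)) → g z = 0 := by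
    intro z hz
    obtain ⟨y, m⟩ := z
    have hm : m ≠ 0 := by
      rintro rfl
      exact hz ⟨(eqF F).symm y, by simp⟩
    simp only [hg]
    unfold trb
    rw [if_neg fun h => hm (by omega), zero_div, zero_mul]
  have hval : ∀ v : HeightOneSpectrum (𝓞 F), g (eqF F v, 0) =
      trb K R b (eqF F v) 1 * φ (Ideal.absNorm v.asIdeal) := by
    intro v
    have e1 : Qc (kp (eqF F v, 0)) = Ideal.absNorm v.asIdeal := by
      rw [Qc_kp]
      simp only [zero_add, pow_one]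
      exact qn_eqF v
    simp only [hg, e1]
    simp
  have hsv : Summable fun v : HeightOneSpectrum (𝓞 F) => trb K R b (eqF F v) 1 *
      φ (Ideal.absNorm v.asIdeal) := by
    have h1 := ((summ_norm (F := F) σ hσ).comp_injective (eqF F).injective).mul_left (|C| * M)
    refine Summable.of_norm_bounded h1 fun v => ?_
    have h2 := trb_norm hf hb (eqF F v) 0
    rw [Real.rpow_zero, mul_one] at h2
    have hq : 1 ≤ Ideal.absNorm v.asIdeal := by
      rw [← qn_eqF v]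
      have := two_le_qn (eqF F v)
      omega
    have h3 := hφ _ hq
    rw [norm_mul, Function.comp_apply, qn_eqF]
    calc ‖trb K R b (eqF F v) 1‖ * ‖φ (Ideal.absNorm v.asIdeal)‖ ≤
        |C| * (M * ((Ideal.absNorm v.asIdeal : ℕ) : ℝ) ^ (-σ)) :=
          mul_le_mul h2 h3 (norm_nonneg _) (abs_nonneg _)
      _ = _ := by ring
  have hsg : Summable g := by
    rw [← hinj.summable_iff hoff]
    exact hsv.congr fun v => (hval v).symm
  have hfin : ∀ c, Finite {z : MaximalSpectrum (𝓞 F) × ℕ // kp z = c} := fun c =>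
    finPh 0 (Module.finrank ℤ (𝓞 F)) c
  have h2 := hsg.hasSum
  rw [← (Equiv.sigmaFiberEquiv (kp (B := 𝓞 F))).hasSum_iff] at h2
  have h3 := h2.sigma (g := fun c => Ac (trb K R b) c * φ (Qc c)) fun c => by
    haveI := hfin c
    let _ := Fintype.ofFinite {z : MaximalSpectrum (𝓞 F) × ℕ // kp z = c}
    have h2 : Ac (trb K R b) c * φ (Qc c) =
        ∑ z : {z : MaximalSpectrum (𝓞 F) × ℕ // kp z = c},
        (g ∘ (Equiv.sigmaFiberEquiv (kp (B := 𝓞 F)))) ⟨c, z⟩ := by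
      unfold Ac
      rw [finsum_eq_sum_of_fintype, Finset.sum_mul]
      refine Finset.sum_congr rfl fun z _ => ?_
      change _ = g z.1
      simp only [hg]
      rw [z.2]
    rw [h2]
    exact hasSum_fintype _
  rw [h3.tsum_eq]
  have h4 := (hinj.hasSum_iff hoff).2 hsg.hasSum
  refine h4.congr_fun ?_ |> fun h => h
  intro v
  exact (hval v).symm

open Classical in
variable (K R) in
/-- the window -/
noncomputable def wd (b : HeightOneSpectrum (𝓞 F) → ℝ) (lam : ℝ) (N : ℕ) : ℝ :=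
  lam ^ (N + 1) / (N.factorial : ℝ) * ∑' v : HeightOneSpectrum (𝓞 F),
    if Gd K R v then b v * (Real.log (Ideal.absNorm v.asIdeal) ^ (N + 1) *
      ((Ideal.absNorm v.asIdeal : ℕ) : ℝ) ^ (-(1 + lam))) else 0

theorem phi_le {lam : ℝ} (hlam : 0 < lam) (N : ℕ) (q : ℕ) (hq : 1 ≤ q) :
    ‖((Real.log q ^ N * (q : ℝ) ^ (-(1 + lam)) : ℝ) : ℂ)‖ ≤
      (N.factorial : ℝ) / (lam / 2) ^ N * (q : ℝ) ^ (-(1 + lam / 2)) := by
  have hQ : (1 : ℝ) ≤ q := by exact_mod_cast hq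
  have hQ0 : (0 : ℝ) < q := by linarith
  have hl : 0 ≤ Real.log q := Real.log_nonneg hQ
  rw [Complex.norm_real, Real.norm_eq_abs, abs_of_nonneg (by positivity)]
  have h2 := pow_log_le (half_pos hlam) hQ N
  calc Real.log q ^ N * (q : ℝ) ^ (-(1 + lam)) ≤
      (N.factorial / (lam / 2) ^ N * (q : ℝ) ^ (lam / 2)) * (q : ℝ) ^ (-(1 + lam)) := by gcongr
    _ = N.factorial / (lam / 2) ^ N * (q : ℝ) ^ (-(1 + lam / 2)) := by
      have e : (q : ℝ) ^ (-(1 + lam / 2)) = (q : ℝ) ^ (lam / 2) * (q : ℝ) ^ (-(1 + lam)) := by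
        rw [← Real.rpow_add hQ0]
        congr 1
        ring
      rw [e]
      ring

theorem wd_summable (hf : IsLisse f R C) (hb : ∀ v, Gd K R v → ValueAt (averageValue f) v (b v))
    {lam : ℝ} (hlam : 0 < lam) (N : ℕ) [DecidablePred (Gd K R (F := F))] :
    HasSum (fun v : HeightOneSpectrum (𝓞 F) =>
      if Gd K R v then b v * (Real.log (Ideal.absNorm v.asIdeal) ^ N *
      ((Ideal.absNorm v.asIdeal : ℕ) : ℝ) ^ (-(1 + lam))) else 0)
      (-(∑' c, Ac (trb K R b) c *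
        ((Real.log (Qc c) ^ N * (Qc c : ℝ) ^ (-(1 + lam)) : ℝ) : ℂ)).re) := by
  have h1 := (v_sum hf hb (fun q => ((Real.log q ^ N * (q : ℝ) ^ (-(1 + lam)) : ℝ) : ℂ))
    (by linarith) (phi_le hlam N)).neg
  have h2 := Complex.hasSum_re h1
  rw [Complex.neg_re] at h2
  refine h2.congr_fun ?_ |> fun h => h
  intro v
  unfold trb
  rw [Equiv.symm_apply_apply]
  by_cases h : Gd K R v
  · rw [if_pos h, if_pos ⟨rfl, h⟩, ← Complex.ofReal_mul, ← Complex.ofReal_neg, Complex.ofReal_re]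
    ring
  · rw [if_neg h, if_neg fun h' => h h'.2, zero_mul, neg_zero, Complex.zero_re]

theorem ac_real (b : HeightOneSpectrum (𝓞 F) → ℝ) (c : Nat.Primes × ℕ) :
    ∃ a : ℝ, Ac (trb K R b) c = (a : ℂ) := by
  classical
  have hfin : Finite (Ph (𝓞 F) c) := finPh 0 (Module.finrank ℤ (𝓞 F)) c
  let _ := Fintype.ofFinite (Ph (𝓞 F) c)
  unfold Ac
  rw [finsum_eq_sum_of_fintype]
  refine ⟨∑ z : Ph (𝓞 F) c, (trb K R b z.1.1 (z.1.2 + 1)).re / ((z.1.2 + 1 : ℕ) : ℝ), ?_⟩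
  push_cast
  refine Finset.sum_congr rfl fun z _ => ?_
  congr 1
  unfold trb
  split_ifs
  · rw [Complex.ofReal_re]
  · simp

theorem wd_eq (hf : IsLisse f R C) (hb : ∀ v, Gd K R v → ValueAt (averageValue f) v (b v))
    {lam : ℝ} (hlam : 0 < lam) (N : ℕ) :
    ((wd K R b lam N : ℝ) : ℂ) = win (bt (Ac (trb K R b)) lam) lam N := by
  classical
  have h1 := (wd_summable hf hb hlam (N + 1)).tsum_eq
  unfold wd
  rw [h1]
  set T : ℂ := ∑' c, Ac (trb K R b) c *
        ((Real.log (Qc c) ^ (N + 1) * (Qc c : ℝ) ^ (-(1 + lam)) : ℝ) : ℂ) with hT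
  have hre : ((T.re : ℝ) : ℂ) = T := by
    choose a ha using ac_real (K := K) (R := R) b
    have h2 : T = ((∑' c, a c * (Real.log (Qc c) ^ (N + 1) * (Qc c : ℝ) ^ (-(1 + lam))) : ℝ) : ℂ) := by
      rw [hT, Complex.ofReal_tsum]
      refine tsum_congr fun c => ?_
      rw [ha c, ← Complex.ofReal_mul]
    rw [h2, Complex.ofReal_re]
  unfold win bt
  rw [← hT]
  push_cast
  rw [hre, Nat.factorial_succ]
  have h2 : ((-1 : ℂ) ^ N) * (-1) ^ N = 1 := by
    rw [← mul_pow]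
    simp
  have hN : ((N : ℂ) + 1) ≠ 0 := by exact_mod_cast Nat.succ_ne_zero N
  have hF : (N.factorial : ℂ) ≠ 0 := by exact_mod_cast Nat.factorial_ne_zero N
  push_cast
  field_simp
  linear_combination ((lam : ℂ) ^ (N + 1) * T) * h2

/-- the comparison with the primes -/
theorem log_split (hf : IsLisse f R C) (hb : ∀ v, Gd K R v → ValueAt (averageValue f) v (b v)) :
    ∃ H : ℂ → ℂ, AnalyticAt ℂ H ((f.m : ℂ) + 1) ∧ ∀ s : ℂ, ((f.m : ℂ) + 1).re < s.re →
      (∑' c, cf f R F c * ((Qc c : ℕ) : ℂ) ^ (-s)) =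
        H s + ∑' c, Ac (trb K R b) c * ((Qc c : ℕ) : ℂ) ^ (-(s - f.m)) := by
  classical
  have hcb := cb (F := F) hf le_rfl
  have hcb' := cb_trb hf hb
  have hre : ((f.m : ℂ) + 1).re = f.m + 1 := by simp
  obtain ⟨d1, s1⟩ := diff_tail (A := cf f R F) (n := f.m) (norm_cf hf) bC_nonneg
  obtain ⟨d2, s2⟩ := diff_tail (A := Ac (trb K R b)) (n := 0)
    (C := Module.finrank ℤ (𝓞 F) * |C|) (fun c => by
      rw [pow_zero, mul_one]
      exact norm_Ac hf hb c) (mul_nonneg (Nat.cast_nonneg _) (abs_nonneg _))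
  set H1 : ℂ → ℂ := fun s => ∑' c : Nat.Primes × ℕ,
    if 1 ≤ c.2 then cf f R F c * ((Qc c : ℕ) : ℂ) ^ (-s) else 0 with hH1
  set H2 : ℂ → ℂ := fun s => ∑' c : Nat.Primes × ℕ,
    if 1 ≤ c.2 then Ac (trb K R b) c * ((Qc c : ℕ) : ℂ) ^ (-s) else 0 with hH2
  refine ⟨fun s => H1 s - H2 (s - f.m), ?_, fun s hs => ?_⟩
  · have o1 : IsOpen {s : ℂ | (f.m : ℝ) + 1 / 2 < s.re} :=
      isOpen_lt continuous_const Complex.continuous_re
    have a1 : AnalyticAt ℂ H1 ((f.m : ℂ) + 1) := d1.analyticAt (o1.mem_nhds (by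
      simp only [Set.mem_ofPred_eq, hre]
      linarith))
    have o2 : IsOpen {s : ℂ | ((0 : ℕ) : ℝ) + 1 / 2 < s.re} :=
      isOpen_lt continuous_const Complex.continuous_re
    have a2 : AnalyticAt ℂ H2 ((f.m : ℂ) + 1 - f.m) := d2.analyticAt (o2.mem_nhds (by
      simp only [Set.mem_ofPred_eq]
      push_cast
      simp
      norm_num))
    refine a1.sub ?_
    exact a2.comp_of_eq (by fun_prop : AnalyticAt ℂ (fun s : ℂ => s - f.m) ((f.m : ℂ) + 1)) rfl
  · rw [hre] at hs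
    have t1 : Summable fun c => cf f R F c * ((Qc c : ℕ) : ℂ) ^ (-s) := sumA' hcb hs
    have hs' : ((0 : ℕ) : ℝ) + 1 < (s - f.m).re := by
      rw [Complex.sub_re, Complex.natCast_re]
      push_cast
      linarith
    have t2 : Summable fun c => Ac (trb K R b) c * ((Qc c : ℕ) : ℂ) ^ (-(s - f.m)) :=
      sumA' hcb' hs'
    have u1 := s1 s (by linarith)
    have u2 := s2 (s - f.m) (by linarith)
    have h1 : (∑' c, cf f R F c * ((Qc c : ℕ) : ℂ) ^ (-s)) - H1 s =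
        (∑' c, Ac (trb K R b) c * ((Qc c : ℕ) : ℂ) ^ (-(s - f.m))) - H2 (s - f.m) := by
      simp only [hH1, hH2]
      rw [← t1.tsum_sub u1, ← t2.tsum_sub u2]
      refine tsum_congr fun c => ?_
      obtain ⟨p, k⟩ := c
      by_cases hk : 1 ≤ k
      · rw [if_pos hk, if_pos hk, sub_self, sub_self]
      · obtain rfl : k = 0 := by omega
        rw [if_neg (by norm_num), if_neg (by norm_num), sub_zero, sub_zero, cf_prime hf hb, Qc_zero]
        have hp : ((p : ℕ) : ℂ) ≠ 0 := by exact_mod_cast p.2.ne_zero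
        rw [mul_comm (((p : ℕ) : ℂ) ^ f.m), mul_assoc]
        congr 1
        rw [← Complex.cpow_natCast, ← Complex.cpow_add _ _ hp]
        congr 1
        ring
    linear_combination h1

/-- **The windows and the order.** -/
theorem windows (hf : IsLisse f R C) (hb : ∀ v, Gd K R v → ValueAt (averageValue f) v (b v))
    {lam : ℝ} (hlam : 0 < lam) (k : ℤ) :
    HasOrder f R F k ↔ ∃ ϱ : ℝ, 0 < ϱ ∧ ϱ < 1 ∧ ∃ B : ℝ, ∀ N, |wd K R b lam N - k| ≤ B * ϱ ^ N := by
  have hcb := cb (F := F) hf le_rfl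
  have hcb' := cb_trb hf hb
  have hre : ((f.m : ℂ) + 1).re = f.m + 1 := by simp
  obtain ⟨H, hH, hDE⟩ := log_split hf hb
  set D : ℂ → ℂ := fun s => ∑' c, cf f R F c * ((Qc c : ℕ) : ℂ) ^ (-s) with hD
  set E₀ : ℂ → ℂ := fun s => ∑' c, Ac (trb K R b) c * ((Qc c : ℕ) : ℂ) ^ (-(s - f.m)) with hE₀
  have hDd : DifferentiableOn ℂ D {s | ((f.m : ℂ) + 1).re < s.re} := by
    rw [hre]
    exact diffA hcb
  have hE₀d : DifferentiableOn ℂ E₀ {s | ((f.m : ℂ) + 1).re < s.re} := by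
    rw [hre]
    refine (diffA hcb').comp (f := fun s : ℂ => s - f.m) (by fun_prop) fun s hs => ?_
    simp only [Set.mem_ofPred_eq] at hs ⊢
    rw [Complex.sub_re, Complex.natCast_re]
    push_cast
    linarith
  have hsum : ∀ z : ℂ, ‖z‖ < lam → HasSum (fun N => bt (Ac (trb K R b)) lam N * z ^ N)
      (E₀ ((f.m : ℂ) + 1 + lam + z)) := by
    intro z hz
    have h1 := taylor hcb' hlam z hz
    have e : -((f.m : ℂ) + 1 + lam + z - f.m) = -(1 + (lam : ℂ) + z) := by ring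
    simp only [hE₀]
    rw [e]
    exact h1
  have h1 := order_iff hDd hH hDE k
  have h2 := win_iff hlam hE₀d hsum (k : ℂ)
  have h3 : HasOrder f R F k ↔ ∃ Λ : ℂ → ℂ, MeromorphicAt Λ ((f.m : ℂ) + 1) ∧
      (∀ᶠ s in 𝓝 ((f.m : ℂ) + 1), ((f.m : ℂ) + 1).re < s.re → Λ s = Complex.exp (D s)) ∧
      meromorphicOrderAt Λ ((f.m : ℂ) + 1) = k := by
    constructor
    · rintro ⟨Φ, Λ, hΦ, h4, h5, h6⟩
      refine ⟨Λ, h4, ?_, h6⟩
      filter_upwards [h5] with s hs hs'
      rw [hre] at hs'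
      rw [hs hs', isPhi_unique hΦ (isPhi hf) s hs']
      rfl
    · rintro ⟨Λ, h4, h5, h6⟩
      refine ⟨Pool.Agent.Y707.PH.Ph f R F, Λ, isPhi hf, h4, ?_, h6⟩
      filter_upwards [h5] with s hs hs'
      rw [← hre] at hs'
      rw [hs hs']
      rfl
  rw [h3, h1, h2]
  have h4 : ∀ N, ‖win (bt (Ac (trb K R b)) lam) lam N - (k : ℂ)‖ = |wd K R b lam N - k| := by
    intro N
    rw [← wd_eq hf hb hlam N, ← Complex.ofReal_intCast, ← Complex.ofReal_sub, Complex.norm_real,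
      Real.norm_eq_abs]
  simp only [h4]

end

end Pool.Agent.W5h21.WN
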