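import Pool.Agent.W5h21.WN.Abs

/-! Orders at the point of contact and Taylor coefficients. -/

set_option autoImplicit false

namespace Pool.Agent.W5h21.WN

open Filter Topology Metric

section
variable {E₀ : ℂ → ℂ} {x₀ : ℂ} {lam : ℝ} {β : ℕ → ℂ}

/-- the normalised coefficients -/
noncomputable def win (β : ℕ → ℂ) (lam : ℝ) (N : ℕ) : ℂ :=
  (-1) ^ N * (N + 1) * (lam : ℂ) ^ (N + 1) * β (N + 1)

/-- the coefficients after the subtraction of the logarithm -/
noncomputable def gm (β : ℕ → ℂ) (lam : ℝ) (r : ℂ) : ℕ → ℂ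
  | 0 => β 0 - r * Complex.log lam
  | N + 1 => β (N + 1) - r * ((-1) ^ N * ((lam : ℂ)⁻¹) ^ (N + 1) / (N + 1))

theorem hasSum_log (hlam : 0 < lam) {z : ℂ} (hz : ‖z‖ < lam) :
    HasSum (fun N : ℕ => if N = 0 then Complex.log lam else
      (-1) ^ (N + 1) * ((lam : ℂ)⁻¹) ^ N / N * z ^ N) (Complex.log (lam + z)) := by
  have hl : (lam : ℂ) ≠ 0 := by exact_mod_cast hlam.ne'
  have h1 : ‖z / lam‖ < 1 := by
    rw [norm_div, Complex.norm_real, Real.norm_eq_abs, abs_of_pos hlam, div_lt_one hlam]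
    exact hz
  have h2 := Complex.hasSum_taylorSeries_log h1
  have h3 : Complex.log (lam + z) = Complex.log lam + Complex.log (1 + z / lam) := by
    have h4 : (lam : ℂ) + z = (lam : ℂ) * (1 + z / lam) := by
      field_simp
    have h5 : 1 + z / lam ≠ 0 := by
      intro h6
      have h7 : z / lam = -1 := by linear_combination h6
      rw [h7, norm_neg, norm_one] at h1
      exact lt_irrefl _ h1
    rw [h4, Complex.log_ofReal_mul hlam h5, Complex.ofReal_log hlam.le]
  rw [h3]
  have h4 : HasSum (fun N : ℕ => if N = 0 then Complex.log lam else 0) (Complex.log lam) :=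
    hasSum_ite_eq 0 _
  refine (h4.add h2).congr_fun ?_ |> fun h => h
  intro N
  rcases N with _ | N
  · simp
  · rw [if_neg (Nat.succ_ne_zero N), if_neg (Nat.succ_ne_zero N), zero_add, div_pow, inv_pow]
    field_simp

theorem hasSum_gm (hlam : 0 < lam)
    (hsum : ∀ z : ℂ, ‖z‖ < lam → HasSum (fun N => β N * z ^ N) (E₀ (x₀ + lam + z))) (r : ℂ)
    (z : ℂ) (hz : ‖z‖ < lam) :
    HasSum (fun N => gm β lam r N * z ^ N)
      (E₀ (x₀ + lam + z) - r * Complex.log (x₀ + lam + z - x₀)) := by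
  have h1 := (hsum z hz).sub ((hasSum_log hlam hz).mul_left r)
  have e : x₀ + lam + z - x₀ = lam + z := by ring
  rw [e]
  refine h1.congr_fun ?_ |> fun h => h
  intro N
  rcases N with _ | N
  · unfold gm
    simp
  · unfold gm
    rw [if_neg (Nat.succ_ne_zero N)]
    push_cast
    ring

theorem gm_succ (hlam : 0 < lam) (r : ℂ) (N : ℕ) :
    ‖win β lam N - r‖ = (N + 1) * lam ^ (N + 1) * ‖gm β lam r (N + 1)‖ := by
  have hl : (lam : ℂ) ≠ 0 := by exact_mod_cast hlam.ne'
  have hN : ((N : ℂ) + 1) ≠ 0 := by exact_mod_cast Nat.succ_ne_zero N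
  have h1 : win β lam N - r = (-1) ^ N * ((N + 1) * (lam : ℂ) ^ (N + 1) * gm β lam r (N + 1)) := by
    have h2 : ((-1 : ℂ) ^ N) * (-1) ^ N = 1 := by
      rw [← mul_pow]
      simp
    have hgm : gm β lam r (N + 1) =
        β (N + 1) - r * ((-1) ^ N * ((lam : ℂ)⁻¹) ^ (N + 1) / (N + 1)) := rfl
    rw [hgm]
    unfold win
    rw [inv_pow]
    field_simp
    linear_combination r * h2
  rw [h1, norm_mul, norm_pow, norm_neg, norm_one, one_pow, one_mul, norm_mul, norm_mul, norm_pow,
    Complex.norm_real, Real.norm_eq_abs, abs_of_pos hlam]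
  congr 2
  have h3 : ((N : ℂ) + 1) = ((N + 1 : ℕ) : ℂ) := by push_cast; rfl
  rw [h3, Complex.norm_natCast]
  push_cast
  rfl

/-- **Continuation and the windows.** -/
theorem win_iff (hlam : 0 < lam) (hE : DifferentiableOn ℂ E₀ {s | x₀.re < s.re})
    (hsum : ∀ z : ℂ, ‖z‖ < lam → HasSum (fun N => β N * z ^ N) (E₀ (x₀ + lam + z))) (r : ℂ) :
    (∃ G : ℂ → ℂ, AnalyticAt ℂ G x₀ ∧
      ∀ᶠ s in 𝓝 x₀, x₀.re < s.re → E₀ s - r * Complex.log (s - x₀) = G s) ↔
    ∃ ϱ : ℝ, 0 < ϱ ∧ ϱ < 1 ∧ ∃ C : ℝ, ∀ N, ‖win β lam N - r‖ ≤ C * ϱ ^ N := by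
  have hd : DifferentiableOn ℂ (fun s => E₀ s - r * Complex.log (s - x₀)) {s | x₀.re < s.re} := by
    refine hE.sub (DifferentiableOn.const_mul ?_ r)
    intro s hs
    refine DifferentiableAt.differentiableWithinAt ?_
    refine DifferentiableAt.clog (by fun_prop) (Or.inl ?_)
    rw [Complex.sub_re, sub_pos]
    exact hs
  constructor
  · rintro ⟨G, hG, hEG⟩
    obtain ⟨q, hq0, hq, C, hC⟩ := decay_of_ext hlam hd (hasSum_gm hlam hsum r) hG hEG
    set a : ℝ := lam * q with ha
    have ha0 : 0 < a := by positivity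
    have ha1 : a < 1 := by
      rw [ha]
      calc lam * q < lam * lam⁻¹ := mul_lt_mul_of_pos_left hq hlam
        _ = 1 := mul_inv_cancel₀ hlam.ne'
    obtain ⟨ϱ, h1, h2⟩ := exists_between ha1
    have hϱ0 : 0 < ϱ := ha0.trans h1
    have hx1 : a / ϱ < 1 := by rwa [div_lt_one hϱ0]
    have h3 : Tendsto (fun N : ℕ => (N : ℝ) ^ 1 * (a / ϱ) ^ N) atTop (𝓝 0) :=
      tendsto_pow_const_mul_const_pow_of_lt_one 1 (by positivity) hx1
    obtain ⟨B, hB⟩ := h3.bddAbove_range
    have hC0 : 0 ≤ C := by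
      have := (norm_nonneg _).trans (hC 0)
      simpa using this
    refine ⟨ϱ, hϱ0, h2, C * (B * ϱ), fun N => ?_⟩
    have h4 : ((N : ℝ) + 1) * (a / ϱ) ^ (N + 1) ≤ B := by
      have := hB (Set.mem_range_self (N + 1))
      simpa using this
    rw [gm_succ hlam]
    calc ((N : ℝ) + 1) * lam ^ (N + 1) * ‖gm β lam r (N + 1)‖ ≤
        ((N : ℝ) + 1) * lam ^ (N + 1) * (C * q ^ (N + 1)) :=
          mul_le_mul_of_nonneg_left (hC (N + 1)) (by positivity)
      _ = C * (((N : ℝ) + 1) * (a / ϱ) ^ (N + 1)) * ϱ ^ (N + 1) := by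
          rw [ha, div_pow, mul_pow]
          field_simp
      _ ≤ C * B * ϱ ^ (N + 1) := by gcongr
      _ = C * (B * ϱ) * ϱ ^ N := by ring
  · rintro ⟨ϱ, hϱ0, hϱ1, C, hC⟩
    have hC0 : 0 ≤ C := by
      have := (norm_nonneg _).trans (hC 0)
      simpa using this
    set q : ℝ := ϱ / lam with hq
    have hq0 : 0 < q := by positivity
    have hq1 : q < lam⁻¹ := by
      rw [hq, div_eq_mul_inv]
      calc ϱ * lam⁻¹ < 1 * lam⁻¹ := mul_lt_mul_of_pos_right hϱ1 (by positivity)
        _ = lam⁻¹ := one_mul _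
    obtain ⟨G, hG, hEG⟩ := ext_of_decay hlam hd (hasSum_gm hlam hsum r) hq0 hq1
      (C := max ‖gm β lam r 0‖ (C / ϱ)) (fun N => by
      rcases N with _ | N
      · rw [pow_zero, mul_one]
        exact le_max_left _ _
      · have h1 := hC N
        rw [gm_succ hlam] at h1
        have hN : (1 : ℝ) ≤ (N : ℝ) + 1 := by
          have : (0 : ℝ) ≤ N := Nat.cast_nonneg N
          linarith
        have h2 : lam ^ (N + 1) * ‖gm β lam r (N + 1)‖ ≤ C * ϱ ^ N := by
          refine le_trans ?_ h1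
          rw [mul_assoc]
          exact le_mul_of_one_le_left (by positivity) hN
        have h3 : ‖gm β lam r (N + 1)‖ ≤ C / ϱ * q ^ (N + 1) := by
          rw [hq, div_pow]
          have h4 : C / ϱ * (ϱ ^ (N + 1) / lam ^ (N + 1)) = C * ϱ ^ N / lam ^ (N + 1) := by
            field_simp
            ring
          rw [h4, le_div_iff₀ (by positivity), mul_comm]
          exact h2
        exact h3.trans (mul_le_mul_of_nonneg_right (le_max_right _ _) (by positivity)))
    exact ⟨G, hG, hEG⟩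

end

/-- a continuous function with exponential one is constant -/
theorem const_of_exp {u : ℂ → ℂ} {U : Set ℂ} (hU : IsPreconnected U) (hc : ContinuousOn u U)
    (h1 : ∀ s ∈ U, Complex.exp (u s) = 1) {a b : ℂ} (ha : a ∈ U) (hb : b ∈ U) : u a = u b := by
  classical
  have h2 : ∀ s, ∃ n : ℤ, s ∈ U → u s = n * (2 * Real.pi * Complex.I) := by
    intro s
    by_cases hs : s ∈ U
    · obtain ⟨n, hn⟩ := Complex.exp_eq_one_iff.1 (h1 s hs)
      exact ⟨n, fun _ => hn⟩
    · exact ⟨0, fun h => absurd h hs⟩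
  choose N hN using h2
  have h3 : ContinuousOn (fun s => (N s : ℝ)) U := by
    have h4 : ContinuousOn (fun s => (u s / (2 * Real.pi * Complex.I)).re) U :=
      Complex.continuous_re.comp_continuousOn (hc.div_const _)
    refine h4.congr fun s hs => ?_
    simp only
    rw [hN s hs, mul_div_assoc, div_self Complex.two_pi_I_ne_zero, mul_one, Complex.intCast_re]
  have h5 : ContinuousOn N U :=
    (Int.isClosedEmbedding_coe_real.isInducing.continuousOn_iff).2 h3
  have h6 : N a = N b := hU.constant h5 ha hb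
  rw [hN a ha, hN b hb, h6]

/-- **The order and the logarithm.** -/
theorem order_iff {D H E₀ : ℂ → ℂ} {x₀ : ℂ} (hD : DifferentiableOn ℂ D {s | x₀.re < s.re})
    (hH : AnalyticAt ℂ H x₀) (hDE : ∀ s, x₀.re < s.re → D s = H s + E₀ s) (k : ℤ) :
    (∃ Λ : ℂ → ℂ, MeromorphicAt Λ x₀ ∧
      (∀ᶠ s in 𝓝 x₀, x₀.re < s.re → Λ s = Complex.exp (D s)) ∧ meromorphicOrderAt Λ x₀ = k) ↔
    ∃ G : ℂ → ℂ, AnalyticAt ℂ G x₀ ∧
      ∀ᶠ s in 𝓝 x₀, x₀.re < s.re → E₀ s - k * Complex.log (s - x₀) = G s := by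
  have hne : ∀ s : ℂ, x₀.re < s.re → s - x₀ ≠ 0 := by
    intro s hs h
    rw [sub_eq_zero] at h
    rw [h] at hs
    exact lt_irrefl _ hs
  have hexp : ∀ s : ℂ, x₀.re < s.re → Complex.exp (k * Complex.log (s - x₀)) = (s - x₀) ^ k := by
    intro s hs
    rw [Complex.exp_int_mul, Complex.exp_log (hne s hs)]
  constructor
  · rintro ⟨Λ, hΛ, h1, h2⟩
    obtain ⟨g, hg, hg0, hgΛ⟩ := (meromorphicOrderAt_eq_int_iff hΛ).1 h2
    set G₁ : ℂ → ℂ := fun s => Complex.log (g x₀) + Complex.log (g s / g x₀) with hG₁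
    have hG₁a : AnalyticAt ℂ G₁ x₀ := by
      refine analyticAt_const.add (AnalyticAt.clog (hg.div_const) ?_)
      rw [div_self hg0]
      exact Complex.one_mem_slitPlane
    have hgne : ∀ᶠ s in 𝓝 x₀, g s ≠ 0 := hg.continuousAt.eventually_ne hg0
    rw [eventually_nhdsWithin_iff] at hgΛ
    obtain ⟨δ, hδ, hδ'⟩ := Metric.eventually_nhds_iff_ball.1
      ((h1.and hgΛ).and (hG₁a.eventually_analyticAt.and hgne))
    set U : Set ℂ := {s : ℂ | x₀.re < s.re} ∩ ball x₀ δ with hU
    have hopen : IsOpen {s : ℂ | x₀.re < s.re} := isOpen_lt continuous_const Complex.continuous_re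
    have hUc : IsPreconnected U := ((convex_halfSpace_re_gt _).inter (convex_ball _ _)).isPreconnected
    set u : ℂ → ℂ := fun s => D s - k * Complex.log (s - x₀) - G₁ s with hu
    have huc : ContinuousOn u U := by
      intro s hs
      have a1 : ContinuousAt D s := (hD.differentiableAt (hopen.mem_nhds hs.1)).continuousAt
      have a2 : ContinuousAt (fun s => Complex.log (s - x₀)) s := by
        refine ContinuousAt.clog (by fun_prop) (Or.inl ?_)
        rw [Complex.sub_re, sub_pos]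
        exact hs.1
      have a3 : ContinuousAt G₁ s := (hδ' s hs.2).2.1.continuousAt
      exact ((a1.sub (continuousAt_const.mul a2)).sub a3).continuousWithinAt
    have hu1 : ∀ s ∈ U, Complex.exp (u s) = 1 := by
      intro s hs
      obtain ⟨⟨b1, b2⟩, -, b4⟩ := hδ' s hs.2
      have b5 := b2 (by
        rw [Set.mem_compl_singleton_iff]
        exact sub_ne_zero.1 (hne s hs.1))
      rw [b1 hs.1, smul_eq_mul] at b5
      have hG : Complex.exp (G₁ s) = g s := by
        simp only [hG₁]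
        rw [Complex.exp_add, Complex.exp_log hg0, Complex.exp_log (div_ne_zero b4 hg0),
          mul_div_cancel₀ _ hg0]
      simp only [hu]
      rw [Complex.exp_sub, Complex.exp_sub, b5, hexp s hs.1, hG]
      have := zpow_ne_zero k (hne s hs.1)
      field_simp
    set a : ℂ := x₀ + ((δ / 2 : ℝ) : ℂ) with ha
    have haU : a ∈ U := by
      refine ⟨?_, ?_⟩
      · simp only [Set.mem_ofPred_eq, ha, Complex.add_re, Complex.ofReal_re]
        linarith
      · rw [mem_ball, dist_eq_norm, ha, add_sub_cancel_left, Complex.norm_real, Real.norm_eq_abs,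
          abs_of_pos (by positivity)]
        linarith
    refine ⟨fun s => G₁ s + u a - H s, (hG₁a.add analyticAt_const).sub hH, ?_⟩
    filter_upwards [ball_mem_nhds x₀ hδ] with s hs hre
    have h3 := const_of_exp hUc huc hu1 (⟨hre, hs⟩ : s ∈ U) haU
    rw [← h3]
    simp only [hu]
    rw [hDE s hre]
    ring
  · rintro ⟨G, hG, h1⟩
    set Λ : ℂ → ℂ := fun s => (s - x₀) ^ k * Complex.exp (H s + G s) with hΛ
    have hgan : AnalyticAt ℂ (fun s => Complex.exp (H s + G s)) x₀ := (hH.add hG).cexp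
    have hmer : MeromorphicAt Λ x₀ := by
      have h2 : MeromorphicAt (fun s : ℂ => s - x₀) x₀ := by fun_prop
      exact (h2.zpow k).mul hgan.meromorphicAt
    refine ⟨Λ, hmer, ?_, ?_⟩
    · filter_upwards [h1] with s hs hre
      simp only [hΛ]
      rw [hDE s hre, ← hexp s hre, ← Complex.exp_add, ← hs hre]
      congr 1
      ring
    · refine (meromorphicOrderAt_eq_int_iff hmer).2 ⟨_, hgan, Complex.exp_ne_zero _, ?_⟩
      exact Eventually.of_forall fun s => rfl

end Pool.Agent.W5h21.WN
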