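import Pool.Agent.W5h21.WN.Mer
import Pool.Agent.W5h21.TB.Cmp

/-! Taylor expansions of the Dirichlet series over prime powers. -/

set_option autoImplicit false

namespace Pool.Agent.W5h21.WN

open Filter Topology Metric
open Pool.Agent.H126R3 (Qc Qc_pos Qc_rpow summ_ind summable_Q)
open Pool.Agent.W385.CP

theorem pow_log_le {x q : ℝ} (hx : 0 < x) (hq : 1 ≤ q) (N : ℕ) :
    (Real.log q) ^ N ≤ N.factorial / x ^ N * q ^ x := by
  have hq0 : 0 < q := by linarith
  have h1 := Real.pow_div_factorial_le_exp (x * Real.log q)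
    (mul_nonneg hx.le (Real.log_nonneg hq)) N
  have h2 : Real.exp (x * Real.log q) = q ^ x := by
    rw [Real.rpow_def_of_pos hq0, mul_comm]
  rw [h2, div_le_iff₀ (by positivity), mul_pow] at h1
  rw [div_mul_eq_mul_div, le_div_iff₀ (by positivity)]
  linarith

section
variable {A : Nat.Primes × ℕ → ℂ} {C : ℝ}

/-- the Taylor coefficients -/
noncomputable def bt (A : Nat.Primes × ℕ → ℂ) (lam : ℝ) (N : ℕ) : ℂ :=
  (-1) ^ N / (N.factorial : ℂ) *
    ∑' c : Nat.Primes × ℕ, A c * ((Real.log (Qc c) ^ N * (Qc c : ℝ) ^ (-(1 + lam)) : ℝ) : ℂ)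

theorem summ_bt (h : CB A 0 C) {lam : ℝ} (hlam : 0 < lam) (N : ℕ) :
    Summable fun c : Nat.Primes × ℕ =>
      A c * ((Real.log (Qc c) ^ N * (Qc c : ℝ) ^ (-(1 + lam)) : ℝ) : ℂ) := by
  have h1 := (sumA h (σ := 1 + lam / 2) (by push_cast; linarith)).mul_left
    ((N.factorial : ℝ) / (lam / 2) ^ N)
  refine Summable.of_norm_bounded h1 fun c => ?_
  have hQ : (1 : ℝ) ≤ Qc c := by exact_mod_cast Qc_pos c
  have hQ0 : (0 : ℝ) < Qc c := by linarith
  have hl : 0 ≤ Real.log (Qc c) := Real.log_nonneg hQ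
  rw [norm_mul, Complex.norm_real, Real.norm_eq_abs, abs_of_nonneg (by positivity)]
  have h2 := pow_log_le (half_pos hlam) hQ N
  calc ‖A c‖ * (Real.log (Qc c) ^ N * (Qc c : ℝ) ^ (-(1 + lam))) ≤
      ‖A c‖ * ((N.factorial / (lam / 2) ^ N * (Qc c : ℝ) ^ (lam / 2)) *
        (Qc c : ℝ) ^ (-(1 + lam))) := by gcongr
    _ = N.factorial / (lam / 2) ^ N * (‖A c‖ * (Qc c : ℝ) ^ (-(1 + lam / 2))) := by
      have e : (Qc c : ℝ) ^ (-(1 + lam / 2)) = (Qc c : ℝ) ^ (lam / 2) * (Qc c : ℝ) ^ (-(1 + lam)) := by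
        rw [← Real.rpow_add hQ0]
        congr 1
        ring
      rw [e]
      ring

/-- the Taylor expansion -/
theorem taylor (h : CB A 0 C) {lam : ℝ} (hlam : 0 < lam) (z : ℂ) (hz : ‖z‖ < lam) :
    HasSum (fun N => bt A lam N * z ^ N)
      (∑' c : Nat.Primes × ℕ, A c * ((Qc c : ℕ) : ℂ) ^ (-(1 + (lam : ℂ) + z))) := by
  set a : (Nat.Primes × ℕ) × ℕ → ℂ := fun x =>
    A x.1 * ((Real.log (Qc x.1) ^ x.2 * (Qc x.1 : ℝ) ^ (-(1 + lam)) : ℝ) : ℂ) *
      ((-1) ^ x.2 / (x.2.factorial : ℂ) * z ^ x.2) with ha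
  have hterm : ∀ c : Nat.Primes × ℕ, HasSum (fun N => a (c, N))
      (A c * ((Qc c : ℕ) : ℂ) ^ (-(1 + (lam : ℂ) + z))) := by
    intro c
    have hQ0 : (0 : ℝ) < Qc c := Qc_pos' c
    have hQ : ((Qc c : ℕ) : ℂ) ≠ 0 := Qc_ne c
    have h1 := (NormedSpace.expSeries_div_hasSum_exp (𝔸 := ℂ) (-(z * (Real.log (Qc c) : ℂ))))
    have h2 := h1.mul_left (A c * (((Qc c : ℝ) ^ (-(1 + lam)) : ℝ) : ℂ))
    have e : A c * (((Qc c : ℝ) ^ (-(1 + lam)) : ℝ) : ℂ) *
        NormedSpace.exp (-(z * (Real.log (Qc c) : ℂ))) =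
        A c * ((Qc c : ℕ) : ℂ) ^ (-(1 + (lam : ℂ) + z)) := by
      rw [← Complex.exp_eq_exp_ℂ, mul_assoc]
      congr 1
      rw [neg_add (1 + (lam : ℂ)), Complex.cpow_add _ _ hQ, Complex.ofReal_cpow hQ0.le]
      push_cast
      congr 1
      rw [Complex.cpow_def_of_ne_zero hQ]
      congr 1
      ring
    rw [e] at h2
    refine h2.congr_fun ?_ |> fun h => h
    intro N
    simp only [ha]
    push_cast
    rw [show (-(z * Complex.log ((Qc c : ℕ) : ℂ))) = (-1) * z * Complex.log ((Qc c : ℕ) : ℂ) by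
      ring, mul_pow, mul_pow]
    ring
  have hsumm : Summable a := by
    refine Summable.of_norm ?_
    refine (summable_prod_of_nonneg fun _ => norm_nonneg _).2 ⟨fun c => ?_, ?_⟩
    · exact ((hterm c).summable).norm
    · have hb : ∀ c : Nat.Primes × ℕ, ∑' N, ‖a (c, N)‖ = ‖A c‖ * (Qc c : ℝ) ^ (-(1 + (lam - ‖z‖))) := by
        intro c
        have hQ0 : (0 : ℝ) < Qc c := Qc_pos' c
        have hQ1 : (1 : ℝ) ≤ Qc c := by exact_mod_cast Qc_pos c
        have hl : 0 ≤ Real.log (Qc c) := Real.log_nonneg hQ1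
        have h1 := (NormedSpace.expSeries_div_hasSum_exp (𝔸 := ℝ) (‖z‖ * Real.log (Qc c)))
        have h2 := h1.mul_left (‖A c‖ * (Qc c : ℝ) ^ (-(1 + lam)))
        have h3 : ‖A c‖ * (Qc c : ℝ) ^ (-(1 + lam)) * NormedSpace.exp (‖z‖ * Real.log (Qc c)) =
            ‖A c‖ * (Qc c : ℝ) ^ (-(1 + (lam - ‖z‖))) := by
          rw [← Real.exp_eq_exp_ℝ, mul_comm ‖z‖, ← Real.rpow_def_of_pos hQ0, mul_assoc,
            ← Real.rpow_add hQ0]
          congr 2
          ring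
        rw [← h3, ← h2.tsum_eq]
        refine tsum_congr fun N => ?_
        simp only [ha]
        rw [norm_mul, norm_mul, norm_mul, norm_div, norm_pow, norm_neg, norm_one, one_pow,
          norm_pow, Complex.norm_natCast, Complex.norm_real, Real.norm_eq_abs,
          abs_of_nonneg (by positivity)]
        ring
      change Summable fun c => ∑' N, ‖a (c, N)‖
      simp only [hb]
      exact sumA h (by push_cast; linarith)
  have h1 : HasSum a (∑' c : Nat.Primes × ℕ, A c * ((Qc c : ℕ) : ℂ) ^ (-(1 + (lam : ℂ) + z))) := by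
    have h2 := hsumm.hasSum.prod_fiberwise fun c => hterm c
    rw [h2.tsum_eq]
    exact hsumm.hasSum
  have h2 := (Equiv.prodComm ℕ (Nat.Primes × ℕ)).hasSum_iff.2 h1
  refine h2.prod_fiberwise fun N => ?_
  have h3 := (summ_bt h hlam N).hasSum.mul_right ((-1) ^ N / (N.factorial : ℂ) * z ^ N)
  have e : (∑' c : Nat.Primes × ℕ,
      A c * ((Real.log (Qc c) ^ N * (Qc c : ℝ) ^ (-(1 + lam)) : ℝ) : ℂ)) *
      ((-1) ^ N / (N.factorial : ℂ) * z ^ N) = bt A lam N * z ^ N := by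
    unfold bt
    ring
  rw [e] at h3
  exact h3

/-- holomorphy beyond the edge without the primes -/
theorem diff_tail {n : ℕ} (hA : ∀ c, ‖A c‖ ≤ C * (Qc c : ℝ) ^ n) (hC : 0 ≤ C) :
    DifferentiableOn ℂ (fun s => ∑' c : Nat.Primes × ℕ,
      if 1 ≤ c.2 then A c * ((Qc c : ℕ) : ℂ) ^ (-s) else 0) {s : ℂ | (n : ℝ) + 1 / 2 < s.re} ∧
    ∀ s : ℂ, (n : ℝ) + 1 / 2 < s.re → Summable (fun c : Nat.Primes × ℕ =>
      if 1 ≤ c.2 then A c * ((Qc c : ℕ) : ℂ) ^ (-s) else 0) := by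
  have hb : ∀ σ : ℝ, (n : ℝ) + 1 / 2 < σ → Summable (fun c : Nat.Primes × ℕ =>
      C * (if 1 ≤ c.2 then (Qc c : ℝ) ^ (-(σ - n)) else 0)) := fun σ hσ =>
    (summable_Q (σ - n) (by linarith) 1 (by push_cast; linarith)).mul_left C
  have hn : ∀ (σ : ℝ) (s : ℂ), σ ≤ s.re → ∀ c : Nat.Primes × ℕ,
      ‖(if 1 ≤ c.2 then A c * ((Qc c : ℕ) : ℂ) ^ (-s) else 0)‖ ≤
        C * (if 1 ≤ c.2 then (Qc c : ℝ) ^ (-(σ - n)) else 0) := by
    intro σ s hs c
    split_ifs
    · have hQ0 : (0 : ℝ) < Qc c := Qc_pos' c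
      have hQ1 : (1 : ℝ) ≤ Qc c := by exact_mod_cast Qc_pos c
      rw [term_norm]
      calc ‖A c‖ * (Qc c : ℝ) ^ (-s.re) ≤ (C * (Qc c : ℝ) ^ n) * (Qc c : ℝ) ^ (-σ) :=
            mul_le_mul (hA c) (Real.rpow_le_rpow_of_exponent_le hQ1 (by linarith)) (by positivity)
              (by positivity)
        _ = C * (Qc c : ℝ) ^ (-(σ - n)) := by
            rw [mul_assoc, ← Real.rpow_natCast, ← Real.rpow_add hQ0]
            congr 2
            ring
    · simp
  constructor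
  · intro s hs
    simp only [Set.mem_ofPred_eq] at hs
    obtain ⟨σ₁, h1, h3⟩ := exists_between hs
    have hopen : IsOpen {s : ℂ | σ₁ < s.re} := isOpen_lt continuous_const Complex.continuous_re
    refine DifferentiableAt.differentiableWithinAt ?_
    have hd : DifferentiableOn ℂ (fun s => ∑' c : Nat.Primes × ℕ,
        if 1 ≤ c.2 then A c * ((Qc c : ℕ) : ℂ) ^ (-s) else 0) {s : ℂ | σ₁ < s.re} := by
      refine Complex.differentiableOn_tsum_of_summable_norm (hb σ₁ h1) ?_ hopen ?_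
      · intro c s _
        have hq : ((Qc c : ℕ) : ℂ) ≠ 0 := Qc_ne c
        by_cases hc : 1 ≤ c.2
        · simp only [if_pos hc]
          exact (((differentiableAt_id.neg).const_cpow (Or.inl hq)).const_mul _).differentiableWithinAt
        · simp only [if_neg hc]
          exact differentiableWithinAt_const _
      · intro c s hs
        exact hn σ₁ s (le_of_lt hs) c
    exact hd.differentiableAt (hopen.mem_nhds h3)
  · intro s hs
    exact Summable.of_norm_bounded (hb s.re hs) (hn s.re s le_rfl)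

end

end Pool.Agent.W5h21.WN
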